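import Pool.Agent.U492.SP.Main

/-!
# A sequentially pseudocompact abelian group that is not selectively sequentially pseudocompact

`MP_3c9c51_gt`, Q1, asks for a ZFC example of a (Hausdorff) topological group, in particular of an
abelian one, which is sequentially pseudocompact but not selectively sequentially pseudocompact. The
answer is yes, without additional hypotheses: there is even a group of exponent two in which all
convergent sequences are eventually constant.

The example is a subgroup `G` of a power of `ZMod 2` such that all countable sets of coordinates can be
prescribed. Any such subgroup is sequentially pseudocompact: the open sets contain basic ones `U n`,
given by conditions on finitely many coordinates; for a suitable infinite `J` these partial functions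
converge, as `n → ∞` in `J`, at each of the countably many coordinates which occur (to a value, or to
the value undefined), and a point `x` of `G` with the limit values is as required. The coordinates of `G`
are indexed by the linearly independent sequences `s` of elements of a vector space `V`, whose basis
elements code countable sets of such sequences with prescribed values; the functional with index `s` is
`1` at all `s n`. Since every sequence of distinct elements of `V` has infinitely many
linearly independent terms, no such sequence converges. In a space in which all convergent sequences
are eventually constant, pairwise disjoint open sets `U n` show that it is not selectively
sequentially pseudocompact.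
-/

set_option autoImplicit false

open Filter Topology Pool.Agent.U492.SP

namespace Pool.Agent.Results.MP_3c9c51_gt.BooleanGroup

/-- There is a Hausdorff topological abelian group of exponent two which is sequentially pseudocompact
(`SeqPseudocompact`) but not selectively sequentially pseudocompact (`SelSeqPseudocompact`), and in
which every convergent sequence is eventually constant. -/
theorem result : ∃ (G : Type) (_ : AddCommGroup G) (_ : TopologicalSpace G),
    IsTopologicalAddGroup G ∧ T2Space G ∧ SeqPseudocompact G ∧ ¬ SelSeqPseudocompact G ∧
      (∀ x : G, x + x = 0) ∧
      (∀ (x : ℕ → G) (a : G), Tendsto x atTop (𝓝 a) → ∀ᶠ n in atTop, x n = a) := by
  refine ⟨G, inferInstance, inferInstance, inferInstance, inferInstance, seqPseudocompact, not_sel,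
    ?_, eventually_eq⟩
  intro x
  apply Subtype.ext
  funext s
  change x.1 s + x.1 s = 0
  generalize x.1 s = c
  revert c
  decide

end Pool.Agent.Results.MP_3c9c51_gt.BooleanGroup
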